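import Pool.Agent.H29.HMF.Stmts

/-!
# Board `hmf`, row DAT: monomial matrices act by `x ↦ ± x + t`
-/

set_option autoImplicit false

open Matrix MeasureTheory

namespace Pool.HMF

theorem dat_00 (v : ℝ) : dg v 0 0 = Real.exp v := by simp [dg]
theorem dat_11 (v : ℝ) : dg v 1 1 = Real.exp (-v) := by simp [dg]
theorem dat_01 (v : ℝ) : dg v 0 1 = 0 := by simp [dg]
theorem dat_10 (v : ℝ) : dg v 1 0 = 0 := by simp [dg]

/-- the sign and the logarithm -/
theorem dat_sign (a : ℝ) (ha : a ≠ 0) : ∃ s : ℝ, s * s = 1 ∧ a = s * Real.exp (Real.log |a|) := by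
  rw [Real.exp_log (abs_pos.mpr ha)]
  rcases lt_or_gt_of_ne ha with h | h
  · exact ⟨-1, by norm_num, by rw [abs_of_neg h]; ring⟩
  · exact ⟨1, by norm_num, by rw [abs_of_pos h]; ring⟩

/-- the first row of `M dg x = dg y k` -/
theorem dat_row (M k : S2) (x y : ℝ) (hk : k.1 * k.1ᵀ = 1) (h : M.1 * dg x = dg y * k.1) :
    (M.1 0 0 * Real.exp x) ^ 2 + (M.1 0 1 * Real.exp (-x)) ^ 2 = Real.exp y ^ 2 := by
  have h0 := congrFun (congrFun h 0) 0
  have h1 := congrFun (congrFun h 0) 1
  have hkk := congrFun (congrFun hk 0) 0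
  rw [Matrix.mul_apply, Matrix.mul_apply, Fin.sum_univ_two, Fin.sum_univ_two] at h0 h1
  rw [Matrix.mul_apply, Fin.sum_univ_two] at hkk
  rw [dat_00, dat_10, dat_00, dat_01] at h0
  rw [dat_01, dat_11, dat_00, dat_01] at h1
  simp only [Matrix.transpose_apply, Matrix.one_apply_eq] at hkk
  have e0 : M.1 0 0 * Real.exp x = Real.exp y * k.1 0 0 := by linarith
  have e1 : M.1 0 1 * Real.exp (-x) = Real.exp y * k.1 0 1 := by linarith
  rw [e0, e1]
  calc (Real.exp y * k.1 0 0) ^ 2 + (Real.exp y * k.1 0 1) ^ 2 =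
      Real.exp y ^ 2 * (k.1 0 0 * k.1 0 0 + k.1 0 1 * k.1 0 1) := by ring
    _ = Real.exp y ^ 2 := by rw [hkk, mul_one]

theorem dat_uniq (a z y : ℝ) (ha : a ≠ 0) (h : (a * Real.exp z) ^ 2 = Real.exp y ^ 2) :
    y = z + Real.log |a| := by
  have h1 : |a * Real.exp z| = |Real.exp y| := (sq_eq_sq_iff_abs_eq_abs _ _).mp h
  rw [abs_mul, abs_of_pos (Real.exp_pos z), abs_of_pos (Real.exp_pos y)] at h1
  have h2 := congrArg Real.log h1
  rw [Real.log_exp, Real.log_mul (abs_ne_zero.mpr ha) (Real.exp_pos z).ne', Real.log_exp] at h2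
  linarith

theorem dat_thm : DATS := by
  intro M p hM
  have hdet := M.2
  rw [Matrix.det_fin_two] at hdet
  rcases hM with ⟨rfl, h01, h10⟩ | ⟨rfl, h00, h11⟩
  · -- diagonal
    rw [h01, h10] at hdet
    have ha : M.1 0 0 ≠ 0 := by
      intro h
      rw [h] at hdet
      norm_num at hdet
    obtain ⟨s, hs, has⟩ := dat_sign (M.1 0 0) ha
    set t : ℝ := Real.log |M.1 0 0| with ht
    have hb : M.1 1 1 = s * Real.exp (-t) := by
      have h1 : s * Real.exp t * M.1 1 1 = 1 := by
        rw [← has]
        linarith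
      have h2 : Real.exp (-t) * Real.exp t = 1 := by
        rw [← Real.exp_add, neg_add_cancel, Real.exp_zero]
      calc M.1 1 1 = (Real.exp (-t) * Real.exp t) * (s * s) * M.1 1 1 := by rw [h2, hs]; ring
        _ = s * Real.exp (-t) * (s * Real.exp t * M.1 1 1) := by ring
        _ = s * Real.exp (-t) := by rw [h1, mul_one]
    refine ⟨t, ?_, ?_⟩
    · intro x
      refine ⟨⟨!![s, 0; 0, s], by rw [Matrix.det_fin_two_of, hs]; ring⟩, ?_, ?_⟩
      · ext i j
        fin_cases i <;> fin_cases j <;>
          simp [Matrix.mul_apply, Fin.sum_univ_two, hs]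
      · have e1 : sg false * x + t = x + t := by simp [sg]
        rw [e1]
        ext i j
        fin_cases i <;> fin_cases j
        · simp [Matrix.mul_apply, Fin.sum_univ_two, dat_00, dat_10, dat_01]
          rw [has, Real.exp_add]
          ring
        · simp [Matrix.mul_apply, Fin.sum_univ_two, dat_00, dat_10, dat_01, dat_11, h01]
        · simp [Matrix.mul_apply, Fin.sum_univ_two, dat_00, dat_10, dat_01, dat_11, h10]
        · simp [Matrix.mul_apply, Fin.sum_univ_two, dat_00, dat_10, dat_01, dat_11]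
          rw [hb, Real.exp_add]
          ring
    · intro x y k hk h
      have h1 := dat_row M k x y hk h
      rw [h01, zero_mul, zero_pow two_ne_zero, add_zero] at h1
      have h2 := dat_uniq _ _ _ ha h1
      rw [h2, ← ht]
      simp [sg]
  · -- antidiagonal
    rw [h00, h11] at hdet
    have ha : M.1 0 1 ≠ 0 := by
      intro h
      rw [h] at hdet
      norm_num at hdet
    obtain ⟨s, hs, has⟩ := dat_sign (M.1 0 1) ha
    set t : ℝ := Real.log |M.1 0 1| with ht
    have hb : M.1 1 0 = -(s * Real.exp (-t)) := by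
      have h1 : s * Real.exp t * M.1 1 0 = -1 := by
        rw [← has]
        linarith
      have h2 : Real.exp (-t) * Real.exp t = 1 := by
        rw [← Real.exp_add, neg_add_cancel, Real.exp_zero]
      calc M.1 1 0 = (Real.exp (-t) * Real.exp t) * (s * s) * M.1 1 0 := by rw [h2, hs]; ring
        _ = s * Real.exp (-t) * (s * Real.exp t * M.1 1 0) := by ring
        _ = -(s * Real.exp (-t)) := by rw [h1]; ring
    refine ⟨t, ?_, ?_⟩
    · intro x
      refine ⟨⟨!![0, s; -s, 0], by rw [Matrix.det_fin_two_of]; linarith⟩, ?_, ?_⟩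
      · ext i j
        fin_cases i <;> fin_cases j <;>
          simp [Matrix.mul_apply, Fin.sum_univ_two, hs]
      · have e1 : sg true * x + t = -x + t := by simp [sg]
        rw [e1]
        ext i j
        fin_cases i <;> fin_cases j
        · simp [Matrix.mul_apply, Fin.sum_univ_two, dat_00, dat_10, dat_01, h00]
        · simp [Matrix.mul_apply, Fin.sum_univ_two, dat_00, dat_10, dat_01, dat_11, h00]
          rw [has, Real.exp_add]
          ring
        · simp [Matrix.mul_apply, Fin.sum_univ_two, dat_00, dat_10, dat_01, dat_11, h11]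
          rw [hb, Real.exp_add]
          ring
        · simp [Matrix.mul_apply, Fin.sum_univ_two, dat_00, dat_10, dat_01, dat_11, h11]
    · intro x y k hk h
      have h1 := dat_row M k x y hk h
      rw [h00, zero_mul, zero_pow two_ne_zero, zero_add] at h1
      have h2 := dat_uniq _ _ _ ha h1
      rw [h2, ← ht]
      simp [sg]

end Pool.HMF
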